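import Pool.Agent.H85.TG.Ker

/-!
# Times with live windows: tubes and lower resolution
-/

set_option autoImplicit false

namespace Pool.KA.TGL92

open Finset Real
open Pool.Agent.H49.Ent Pool.Agent.H32.Dense Pool.STK Pool.KA

variable {m J : ℕ}

/-- The relative entropy of the image. -/
theorem kl_low {F : Fam m J} {μ : F.Ω → ℕ → ℝ} (h : F.Ker μ) {q : ℕ} (hq : q ≤ J) {U : Type}
    (W : F.Ω → U) (h1 : Det F.p W (fun ω => (F.l ω, F.Z ω)))
    (h2 : Det F.p (fun ω => (F.l ω, F.Z ω)) W) :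
    Ex F.p (fun ω => -Real.log (lowk (μ ω) q (F.T ω / 2 ^ q))) -
      CH F.p (fun ω => F.T ω / 2 ^ q) W ≤ F.kl μ := by
  have hp := F.isLaw.nonneg
  have e0 : J - (J - q) = q := by omega
  have e1 := h.klv_mono (Nat.sub_le J q) le_rfl
  rw [F.klv_top] at e1
  refine le_trans (le_of_eq ?_) e1
  unfold Fam.klv
  have e2 : ∀ ω, pm (μ ω) J (J - q) (F.T ω) = lowk (μ ω) q (F.T ω / 2 ^ q) := by
    intro ω
    rw [pm_eq, e0]
  have e3 : F.T1 (J - q) = fun ω => F.T ω / 2 ^ q := by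
    funext ω
    unfold Fam.T1
    rw [e0]
  have e4 : CH F.p (fun ω => F.T ω / 2 ^ q) W =
      CH F.p (fun ω => F.T ω / 2 ^ q) (fun ω => (F.l ω, F.Z ω)) := by
    refine CH_congr hp ?_ ?_ h1 h2
    · intro ω ω' _ _ hh
      exact (Prod.ext_iff.1 hh).1
    · intro ω ω' _ _ hh
      exact (Prod.ext_iff.1 hh).1
  rw [e3, e4]
  simp_rw [e2]

theorem tub_det (F : Fam m J) {q : ℕ} (hq : q ≤ J) :
    Det F.p (fun ω => ((F.tub q hq).l ω, (F.tub q hq).Z ω)) (fun ω => (F.l ω, F.Z ω)) := by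
  intro ω ω' _ _ h
  have h1 := Prod.ext_iff.1 h
  have h2 := Prod.ext_iff.1 h1.1
  have h3 := Prod.ext_iff.1 h1.2
  have h4 : F.L q ω = F.L q ω' := h3.1
  have h5 := Prod.ext_iff.1 h4
  have hpos : (0 : ℝ) < 2 ^ q := by positivity
  have e1 : F.u ω = F.u ω' := by
    funext i
    have a1 : Int.fract (2 ^ q * F.u ω i) = Int.fract (2 ^ q * F.u ω' i) := congrFun h2.1 i
    have a2 : ⌊2 ^ q * F.u ω i⌋ = ⌊2 ^ q * F.u ω' i⌋ := congrFun h5.1 i
    have a3 : 2 ^ q * F.u ω i = 2 ^ q * F.u ω' i := by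
      rw [← Int.floor_add_fract (2 ^ q * F.u ω i), ← Int.floor_add_fract (2 ^ q * F.u ω' i), a1, a2]
    exact mul_left_cancel₀ hpos.ne' a3
  have e2 : F.d ω = F.d ω' := by
    funext i
    have a1 : Int.fract (2 ^ q * F.d ω i) = Int.fract (2 ^ q * F.d ω' i) := congrFun h2.2 i
    have a2 : ⌊2 ^ q * F.d ω i⌋ = ⌊2 ^ q * F.d ω' i⌋ := congrFun h5.2 i
    have a3 : 2 ^ q * F.d ω i = 2 ^ q * F.d ω' i := by
      rw [← Int.floor_add_fract (2 ^ q * F.d ω i), ← Int.floor_add_fract (2 ^ q * F.d ω' i), a1, a2]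
    exact mul_left_cancel₀ hpos.ne' a3
  exact Prod.ext (Prod.ext e1 e2) h3.2

theorem tub_det' (F : Fam m J) {q : ℕ} (hq : q ≤ J) :
    Det F.p (fun ω => (F.l ω, F.Z ω)) (fun ω => ((F.tub q hq).l ω, (F.tub q hq).Z ω)) := by
  intro ω ω' _ _ h
  have h1 := Prod.ext_iff.1 h
  have h2 := Prod.ext_iff.1 h1.1
  have e1 : F.u ω = F.u ω' := h2.1
  have e2 : F.d ω = F.d ω' := h2.2
  have e3 : F.Z ω = F.Z ω' := h1.2
  show (((fun i => Int.fract (2 ^ q * F.u ω i)), (fun i => Int.fract (2 ^ q * F.d ω i))),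
      ((fl q (F.u ω), fl q (F.d ω)), F.Z ω)) =
    (((fun i => Int.fract (2 ^ q * F.u ω' i)), (fun i => Int.fract (2 ^ q * F.d ω' i))),
      ((fl q (F.u ω'), fl q (F.d ω')), F.Z ω'))
  rw [e1, e2, e3]

theorem tgl_thm : TGLStmt := by
  intro m J F s K η r n e ⟨μ, hK, hs, hL, hk⟩
  have hp := F.isLaw.nonneg
  constructor
  · intro q hq
    refine ⟨fun ω => lowk (μ ω) q, ⟨fun ω t => lowk_nonneg (hK.nonneg ω) _ _, fun ω => ?_,
      fun ω hω => ?_, fun ω ω' hω hω' h => ?_⟩, fun h ω ω' hω hω' hh => ?_,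
      fun ω hω a b hab hb => ?_, ?_⟩
    · rw [sum_lowk _ hq]
      exact hK.sum ω
    · exact (hK.pos ω hω).trans_le (le_lowk (hK.nonneg ω) q _)
    · have h1 : μ ω = μ ω' := hK.det ω ω' hω hω' (tub_det F hq ω ω' hω hω' h)
      show lowk (μ ω) q = lowk (μ ω') q
      rw [h1]
    · have h1 : F.Z ω = F.Z ω' := (Prod.ext_iff.1 hh).2
      have h2 : μ ω = μ ω' := hs h ω ω' hω hω' h1
      show lowk (μ ω) q = lowk (μ ω') q
      rw [h2]
    · have h1 := hL ω hω a b hab (hb.trans (Nat.sub_le _ _))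
      have h2 : nbad (lowk (μ ω) q) (J - q) K η (F.T ω / 2 ^ q) a b ≤
          nbad (μ ω) J K η (F.T ω) a b := nbad_low _ _ _ _ _ _ _ _ hq
      exact le_trans (by exact_mod_cast h2) h1
    · exact (kl_low hK hq _ (tub_det F hq) (tub_det' F hq)).trans hk
  · intro x hx
    obtain ⟨q, hqd⟩ : ∃ q, q = J - x := ⟨_, rfl⟩
    have hq : q ≤ J := by omega
    have hx' : J - q = x := by omega
    subst hx'
    have e0 : J - (J - q) = q := by omega
    refine ⟨fun ω => lowk (μ ω) q, ⟨fun ω t => lowk_nonneg (hK.nonneg ω) _ _, fun ω => ?_,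
      fun ω hω => ?_, fun ω ω' hω hω' h => ?_⟩, fun h ω ω' hω hω' hh => ?_,
      fun ω hω a b hab hb => ?_, ?_⟩
    · rw [sum_lowk _ hq]
      exact hK.sum ω
    · have h1 : (F.trc (J - q) hx).T ω = F.T ω / 2 ^ q := by
        show F.T ω / 2 ^ (J - (J - q)) = _
        rw [e0]
      rw [h1]
      exact (hK.pos ω hω).trans_le (le_lowk (hK.nonneg ω) q _)
    · have h1 : μ ω = μ ω' := hK.det ω ω' hω hω' h
      show lowk (μ ω) q = lowk (μ ω') q
      rw [h1]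
    · have h2 : μ ω = μ ω' := hs h ω ω' hω hω' hh
      show lowk (μ ω) q = lowk (μ ω') q
      rw [h2]
    · have h1 := hL ω hω a b hab (hb.trans (Nat.sub_le _ _))
      have h2 : nbad (lowk (μ ω) q) (J - q) K η (F.T ω / 2 ^ q) a b ≤
          nbad (μ ω) J K η (F.T ω) a b := nbad_low _ _ _ _ _ _ _ _ hq
      have h3 : (F.trc (J - q) hx).T ω = F.T ω / 2 ^ q := by
        show F.T ω / 2 ^ (J - (J - q)) = _
        rw [e0]
      rw [h3]
      exact le_trans (by exact_mod_cast h2) h1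
    · refine le_trans (le_of_eq ?_) ((kl_low hK hq (fun ω => (F.l ω, F.Z ω))
        (fun _ _ _ _ h => h) (fun _ _ _ _ h => h)).trans hk)
      have h3 : (F.trc (J - q) hx).T = fun ω => F.T ω / 2 ^ q := by
        funext ω
        show F.T ω / 2 ^ (J - (J - q)) = _
        rw [e0]
      unfold Fam.kl
      rw [h3]
      rfl

end Pool.KA.TGL92
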